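import Mathlib
import Pool.Agent.SPT.LinH
import Pool.Agent.SPT.Lev

/-!
# SRH, module HV (helper36): the polynomial of the spanning sets vanishes on the annihilator of the short
vectors

`f` has at most `B` terms. `y` gives a weight different from zero to every class such that the product
`∏ y v ^ d v` is `1` for every short vector `d`. Then `PP X ⊥ y = 0`, where `X` is the set of the nonzero
rows of the cut matrix.
-/

set_option autoImplicit false
set_option linter.unusedSectionVars false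

open Module Matrix Submodule Pool.Agent.UNI LaurentPolynomial Pool.Agent.SPT Pool.Agent.SPT.Rel
  Pool.Agent.SPT.Lin

namespace Pool.Agent.SRH

section

variable {E : Type} [Fintype E] [DecidableEq E]

/-- **The cluster lemma for the state sum**, general coefficients -/
theorem HV_cluster (K : Type) [CommRing K] (M : Matrix E E (ZMod 2)) (hM : ∀ i j, M i j = M j i)
    (σ : E → Bool) (B : ℕ) (hB : (SS K M σ).coeff.support.card ≤ B)
    (ψ : Finset (E → ZMod 2) → K)
    (hψ : ∀ F ∈ II M, ∀ F' ∈ II M,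
      |∑ v ∈ F, tw M σ v - ∑ v ∈ F', tw M σ v| < 2 * ((B : ℤ) + 2) * (M.rank + 1) → ψ F = ψ F') :
    ∃ t, ∑ F ∈ (Finset.univ.image M).powerset, C (ψ F) *
      Lin.GG M (fun c => qu K (σ c)) Finset.univ (ph K M) F = dl K ^ M.rank * t := by
  classical
  obtain ⟨m, hm⟩ := PF_eq (K := K) σ
  obtain ⟨G, hG⟩ : ∃ G : Finset (E → ZMod 2) → K[T;T⁻¹], ∀ F, G F =
      Lin.GG M (fun c => qu K (σ c)) Finset.univ (ph K M) F := ⟨_, fun _ => rfl⟩
  have h0 : ∀ F ∈ (Finset.univ.image M).powerset, F ∉ II M → G F = 0 := by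
    intro F hF hFI
    unfold II at hFI
    rw [Finset.mem_filter, not_and, not_or, not_not] at hFI
    obtain ⟨h1, h2⟩ := hFI hF
    rw [hG]
    unfold Lin.GG
    rw [KK_loop M _ F h2 h1, mul_zero]
  have hsub : II M ⊆ (Finset.univ.image M).powerset := Finset.filter_subset _ _
  have hsum : ∀ χ : Finset (E → ZMod 2) → K, ∑ F ∈ (Finset.univ.image M).powerset,
      C (χ F) * G F = ∑ F ∈ II M, C (χ F) * G F := by
    intro χ
    symm
    refine Finset.sum_subset hsub fun F hF hFI => ?_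
    rw [h0 F hF hFI, mul_zero]
  have hSS := SS_eq (K := K) M hM σ
  have hsum1 : ∑ F ∈ (Finset.univ.image M).powerset, G F = ∑ F ∈ II M, G F := by
    symm
    exact Finset.sum_subset hsub h0
  have hD : dl K ^ M.rank * SS K M σ = ∑ F ∈ II M, T m * G F := by
    rw [hSS, hm, ← Finset.mul_sum, ← hsum1]
    rw [Finset.sum_congr rfl fun F _ => hG F]
  obtain ⟨t, ht⟩ := cluster (dl K ^ M.rank) (4 * (M.rank : ℤ)) (by positivity)
    ((Sup_dl M.rank).mono fun n hn => by constructor <;> omega) B (fun F => T m * G F)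
    (fun F => m + 4 * ∑ v ∈ F, tw M σ v) ψ ((B + 1) * (2 * (4 * (M.rank : ℤ)) + 1) +
      2 * (4 * (M.rank : ℤ))) le_rfl (II M).card (II M) le_rfl (by
      intro F _
      have h1 := Sup_GG (K := K) M σ F
      rw [← hG] at h1
      refine Sup.mul (Sup.T m) h1 fun a b ha hb => ?_
      unfold tw
      constructor <;> omega) _ hB hD (by
      intro F hF F' hF' habs
      refine hψ F hF F' hF' ?_
      obtain ⟨x, hx⟩ : ∃ x : ℤ, x = ∑ v ∈ F, tw M σ v - ∑ v ∈ F', tw M σ v := ⟨_, rfl⟩
      have h1 : m + 4 * ∑ v ∈ F, tw M σ v - (m + 4 * ∑ v ∈ F', tw M σ v) = 4 * x := by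
        rw [hx]
        ring
      rw [h1, abs_mul] at habs
      rw [← hx]
      have h2 : |(4 : ℤ)| = 4 := by norm_num
      rw [h2] at habs
      have h3 : 2 * ((B : ℤ) + 2) * (M.rank + 1) =
          2 * ((B : ℤ) * M.rank) + 2 * B + 4 * M.rank + 4 := by ring
      have h4 : ((B : ℤ) + 1) * (2 * (4 * (M.rank : ℤ)) + 1) =
          8 * ((B : ℤ) * M.rank) + 8 * M.rank + B + 1 := by ring
      rw [h4] at habs
      rw [h3]
      have h5 : 0 ≤ (B : ℤ) * M.rank := by positivity
      omega)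
  refine ⟨T (-m) * t, ?_⟩
  have h6 : ∑ F ∈ II M, C (ψ F) * (T m * G F) = T m * ∑ F ∈ II M, C (ψ F) * G F := by
    rw [Finset.mul_sum]
    refine Finset.sum_congr rfl fun F _ => ?_
    ring
  rw [h6, ← hsum] at ht
  have h7 : T (-m) * (T m * ∑ F ∈ (Finset.univ.image M).powerset, C (ψ F) * G F) =
      T (-m) * (dl K ^ M.rank * t) := by rw [ht]
  rw [← mul_assoc, ← T_add, neg_add_cancel, T_zero, one_mul] at h7
  rw [Finset.sum_congr rfl fun F _ => by rw [← hG F], h7]
  ring

/-! ### spanning sets and the exponent -/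

/-- separation by the dot product -/
private theorem HV_sep (A : Submodule (ZMod 2) (E → ZMod 2)) (v : E → ZMod 2) (hv : v ∉ A) :
    ∃ y : E → ZMod 2, (∀ a ∈ A, a ⬝ᵥ y = 0) ∧ v ⬝ᵥ y ≠ 0 := by
  obtain ⟨f, hf, hA⟩ := Submodule.exists_dual_map_eq_bot_of_notMem hv inferInstance
  have h1 : ∀ a, a ⬝ᵥ (fun c => f (fun j => if c = j then 1 else 0)) = f a := by
    intro a
    rw [LinearMap.pi_apply_eq_sum_univ f a]
    rfl
  refine ⟨fun c => f (fun j => if c = j then 1 else 0), fun a ha => ?_, ?_⟩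
  · rw [h1]
    have h2 : f a ∈ A.map f := ⟨a, ha, rfl⟩
    rw [hA] at h2
    exact h2
  · rw [h1]
    exact hf

open Classical in
private theorem HV_mem_ck (M : Matrix E E (ZMod 2)) (U : Finset (E → ZMod 2))
    (hU : U ⊆ Finset.univ.image M) (a : E → ZMod 2) (y : Im M) (hy : M *ᵥ a = y) :
    y ∈ ck (U.image (psi M)) ↔ ∀ v ∈ U, v ⬝ᵥ a = 0 := by
  constructor
  · intro h v hv
    obtain ⟨c, -, rfl⟩ := Finset.mem_image.1 (hU hv)
    have h1 := h _ (Finset.mem_image_of_mem _ hv)
    rw [psi_row, co_apply, ← hy] at h1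
    exact h1
  · intro h u hu
    obtain ⟨v, hv, rfl⟩ := Finset.mem_image.1 hu
    obtain ⟨c, -, rfl⟩ := Finset.mem_image.1 (hU hv)
    rw [psi_row, co_apply, ← hy]
    exact h _ hv

/-- a spanning set of rows has exponent zero -/
theorem HV_span (M : Matrix E E (ZMod 2)) (U : Finset (E → ZMod 2))
    (hU : U ⊆ Finset.univ.image M)
    (h : span (ZMod 2) (U : Set (E → ZMod 2)) =
      span (ZMod 2) ((Finset.univ.image M : Finset (E → ZMod 2)) : Set (E → ZMod 2))) :
    ex M U = 0 := by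
  classical
  have h0 : ck (U.image (psi M)) = ⊥ := by
    rw [eq_bot_iff]
    intro y hy
    obtain ⟨a, ha⟩ := y.2
    have ha' : M *ᵥ a = y := ha
    rw [HV_mem_ck M U hU a y ha'] at hy
    rw [Submodule.mem_bot]
    apply Subtype.ext
    rw [← ha']
    funext c
    show M c ⬝ᵥ a = 0
    obtain ⟨r, hr⟩ : ∃ r, r = M c := ⟨_, rfl⟩
    have h1 : r ∈ span (ZMod 2) (U : Set (E → ZMod 2)) := by
      rw [h, hr]
      exact subset_span (Finset.mem_coe.2 (Finset.mem_image_of_mem _ (Finset.mem_univ c)))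
    rw [← hr]
    clear hr
    induction h1 using Submodule.span_induction with
    | mem v hv => exact hy v hv
    | zero => exact zero_dotProduct a
    | add v w _ _ hv hw => rw [add_dotProduct, hv, hw, add_zero]
    | smul r v _ hv => rw [smul_dotProduct, hv, smul_zero]
  have h1 : rad (fo M) (⊥ : Submodule (ZMod 2) (Im M)) = ⊥ := by
    rw [eq_bot_iff]
    exact fun y hy => hy.1
  unfold ex
  rw [h0, finrank_bot, zero_add, h1, finrank_bot]

/-- other sets have positive exponent -/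
theorem HV_notSpan (M : Matrix E E (ZMod 2)) (U : Finset (E → ZMod 2))
    (hU : U ⊆ Finset.univ.image M)
    (h : span (ZMod 2) (U : Set (E → ZMod 2)) ≠
      span (ZMod 2) ((Finset.univ.image M : Finset (E → ZMod 2)) : Set (E → ZMod 2))) :
    ex M U ≠ 0 := by
  classical
  intro h1
  unfold ex at h1
  have h2 : finrank (ZMod 2) (ck (U.image (psi M))) = 0 := by omega
  rw [Submodule.finrank_eq_zero] at h2
  apply h
  apply le_antisymm (span_mono (Finset.coe_subset.2 hU))
  rw [span_le]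
  intro v hv
  obtain ⟨c, -, rfl⟩ := Finset.mem_image.1 (Finset.mem_coe.1 hv)
  by_contra h3
  obtain ⟨a, ha, hac⟩ := HV_sep _ _ h3
  have h4 : (⟨M.mulVecLin a, a, rfl⟩ : Im M) ∈ ck (U.image (psi M)) := by
    rw [HV_mem_ck M U hU a _ rfl]
    exact fun v hv => ha v (subset_span hv)
  rw [h2, Submodule.mem_bot] at h4
  exact hac (congrFun (congrArg Subtype.val h4) c)

/-! ### the value at `exp (i π / 4)` -/

/-- the point -/
noncomputable def A0 : ℂˣ := Units.mk0 (Complex.exp ((Real.pi / 4 : ℝ) * Complex.I))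
  (Complex.exp_ne_zero _)

theorem A0_four : (A0 : ℂ) ^ 4 = -1 := by
  unfold A0
  rw [Units.val_mk0, ← Complex.exp_nat_mul]
  have h : ((4 : ℕ) : ℂ) * (((Real.pi / 4 : ℝ) : ℂ) * Complex.I) = Real.pi * Complex.I := by
    push_cast
    ring
  rw [h, Complex.exp_pi_mul_I]

/-- the value -/
noncomputable def evA : ℂ[T;T⁻¹] →+* ℂ := LaurentPolynomial.eval₂ (RingHom.id ℂ) A0

theorem evA_T (n : ℤ) : evA (T n) = (A0 : ℂ) ^ n := by
  unfold evA
  rw [eval₂_T]
  push_cast
  rfl

theorem evA_C (a : ℂ) : evA (C a) = a := by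
  unfold evA
  rw [eval₂_C]
  rfl

theorem evA_qu (b : Bool) : evA (qu ℂ b) = 1 := by
  unfold qu
  cases b
  · simp only [Bool.false_eq_true, if_false]
    rw [map_neg, evA_T, _root_.zpow_neg]
    have h : (A0 : ℂ) ^ (4 : ℤ) = -1 := by
      rw [← A0_four]
      norm_cast
    rw [h]
    norm_num
  · simp only [if_true]
    rw [map_neg, evA_T]
    have h : (A0 : ℂ) ^ (4 : ℤ) = -1 := by
      rw [← A0_four]
      norm_cast
    rw [h]
    norm_num

theorem evA_dl : evA (dl ℂ) = 0 := by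
  unfold dl
  rw [map_sub, map_neg, evA_T, evA_T]
  have h0 : (A0 : ℂ) ≠ 0 := Units.ne_zero _
  have h3 : (A0 : ℂ) ^ (2 : ℤ) = (A0 : ℂ) ^ 2 := by norm_cast
  have h4 : (A0 : ℂ) ^ (-2 : ℤ) = ((A0 : ℂ) ^ 2)⁻¹ := by
    rw [_root_.zpow_neg, h3]
  have h : (A0 : ℂ) ^ (-2 : ℤ) = -(A0 : ℂ) ^ (2 : ℤ) := by
    rw [h4, h3]
    have h2 : (A0 : ℂ) ^ 2 ≠ 0 := pow_ne_zero _ h0
    have h5 := A0_four
    apply eq_of_sub_eq_zero
    have h6 : ((A0 : ℂ) ^ 2)⁻¹ * (A0 : ℂ) ^ 2 = 1 := inv_mul_cancel₀ h2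
    have h7 : (((A0 : ℂ) ^ 2)⁻¹ + (A0 : ℂ) ^ 2) * (A0 : ℂ) ^ 2 = 0 := by
      rw [add_mul, h6]
      linear_combination h5
    have h8 := (mul_eq_zero.1 h7).resolve_right h2
    linear_combination h8
  rw [h]
  ring

/-- **The polynomial of the spanning sets vanishes** -/
theorem HV_main (M : Matrix E E (ZMod 2)) (hM : ∀ i j, M i j = M j i) (σ : E → Bool)
    (hr : M.rank ≠ 0) (B N : ℕ) (hB : (SS ℂ M σ).coeff.support.card ≤ B)
    (hN : 2 * (B + 2) * (M.rank + 1) ≤ N) (y : (E → ZMod 2) → ℂ) (hy0 : ∀ v, y v ≠ 0)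
    (hy : ∀ d, Small ((Finset.univ.image M).erase 0) (tw M σ) N d →
      ∏ v ∈ (Finset.univ.image M).erase 0, y v ^ d v = 1) :
    PP ((Finset.univ.image M).erase 0) ⊥ y = 0 := by
  classical
  obtain ⟨X, hX⟩ : ∃ X, X = Finset.univ.image M := ⟨_, rfl⟩
  obtain ⟨x, hx⟩ : ∃ x : (E → ZMod 2) → ℂ, ∀ v, x v = if v = 0 then 1 else y v :=
    ⟨_, fun _ => rfl⟩
  have hx0 : ∀ v, x v ≠ 0 := by
    intro v
    rw [hx]
    split_ifs
    · exact one_ne_zero
    · exact hy0 v
  -- the products over the sets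
  have hψ : ∀ F ∈ II M, ∀ F' ∈ II M,
      |∑ v ∈ F, tw M σ v - ∑ v ∈ F', tw M σ v| < 2 * ((B : ℤ) + 2) * (M.rank + 1) →
      ∏ v ∈ F, x v = ∏ v ∈ F', x v := by
    intro F hF F' hF' h
    unfold II at hF hF'
    rw [Finset.mem_filter, Finset.mem_powerset, ← hX] at hF hF'
    have hd0 : ∀ v, v ∉ X.erase 0 → di F F' v = 0 := by
      intro v hv
      rw [Finset.mem_erase, not_and_or, not_not] at hv
      unfold di
      rcases hv with rfl | hv
      · by_cases h0 : (0 : E → ZMod 2) ∈ X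
        · rw [if_pos (hF.2.resolve_right (not_not.2 h0)),
            if_pos (hF'.2.resolve_right (not_not.2 h0)), sub_self]
        · rw [if_neg fun h1 => h0 (hF.1 h1), if_neg fun h1 => h0 (hF'.1 h1), sub_self]
      · rw [if_neg fun h1 => hv (hF.1 h1), if_neg fun h1 => hv (hF'.1 h1), sub_self]
    have hsub : X.erase 0 ⊆ X := Finset.erase_subset _ _
    have hS : Small (X.erase 0) (tw M σ) N (di F F') := by
      refine ⟨fun v => ?_, hd0, ?_⟩
      · unfold di
        by_cases h1 : v ∈ F <;> by_cases h2 : v ∈ F' <;> simp [h1, h2]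
      · have h1 := sum_di X F F' hF.1 hF'.1 (tw M σ)
        simp only [Int.cast_id] at h1
        have h2 : ∑ v ∈ X.erase 0, di F F' v * tw M σ v = ∑ v ∈ X, tw M σ v * di F F' v := by
          rw [← Finset.sum_subset hsub fun v _ hv => by rw [hd0 v hv, mul_zero]]
          exact Finset.sum_congr rfl fun v _ => mul_comm _ _
        rw [h2, h1]
        refine h.trans_le ?_
        have h3 : ((2 * (B + 2) * (M.rank + 1) : ℕ) : ℤ) ≤ N := by exact_mod_cast hN
        push_cast at h3
        exact h3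
    rw [← hX] at hy
    have h1 := hy _ hS
    have h2 : ∏ v ∈ X, x v ^ di F F' v = 1 := by
      rw [← h1, ← Finset.prod_subset hsub fun v _ hv => by rw [hd0 v hv, _root_.zpow_zero]]
      refine Finset.prod_congr rfl fun v hv => ?_
      rw [hx, if_neg (Finset.ne_of_mem_erase hv)]
    have h3 : ∀ F : Finset (E → ZMod 2), F ⊆ X →
        ∏ v ∈ F, x v = ∏ v ∈ X, x v ^ (if v ∈ F then (1 : ℤ) else 0) := by
      intro F hF
      rw [← Finset.prod_subset hF]
      · refine Finset.prod_congr rfl fun v hv => ?_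
        rw [if_pos hv, zpow_one]
      · intro v _ hv
        rw [if_neg hv, _root_.zpow_zero]
    have h4 : (∏ v ∈ X, x v ^ di F F' v) * ∏ v ∈ F', x v = ∏ v ∈ F, x v := by
      rw [h3 F hF.1, h3 F' hF'.1, ← Finset.prod_mul_distrib]
      refine Finset.prod_congr rfl fun v _ => ?_
      rw [← zpow_add₀ (hx0 v)]
      congr 1
      unfold di
      ring
    rw [← h4, h2, one_mul]
  obtain ⟨t, ht⟩ := HV_cluster ℂ M hM σ B hB (fun F => ∏ v ∈ F, x v) hψ
  have h1 := congrArg evA ht
  rw [map_mul, map_pow, evA_dl, zero_pow hr, zero_mul, map_sum] at h1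
  -- the value of the terms
  have h2 : ∀ U : Finset (E → ZMod 2), evA (ph ℂ M U) = if ex M U = 0 then 1 else 0 := by
    intro U
    unfold ph
    rw [map_pow, evA_dl]
    split_ifs with h
    · rw [h, pow_zero]
    · rw [zero_pow h]
  have h3 : ∀ F : Finset (E → ZMod 2),
      evA (Lin.GG M (fun c => qu ℂ (σ c)) Finset.univ (ph ℂ M) F) =
        KK X (fun U => if ex M U = 0 then (1 : ℂ) else 0) F := by
    intro F
    unfold Lin.GG Lin.KK
    rw [map_mul, map_prod, map_sum, ← hX]
    have h4 : ∏ k ∈ F, evA (pw M (fun c => qu ℂ (σ c)) Finset.univ k) = 1 := by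
      refine Finset.prod_eq_one fun k _ => ?_
      unfold pw
      rw [map_prod]
      exact Finset.prod_eq_one fun c _ => evA_qu _
    rw [h4, one_mul]
    refine Finset.sum_congr rfl fun U _ => ?_
    rw [map_mul, map_pow, map_neg, map_one, h2]
  have h4 : ∑ F ∈ X.powerset, (∏ v ∈ F, x v) *
      KK X (fun U => if ex M U = 0 then (1 : ℂ) else 0) F = 0 := by
    refine Eq.trans ?_ h1
    rw [← hX]
    refine Finset.sum_congr rfl fun F _ => ?_
    rw [map_mul, evA_C, h3]
  rw [← expand] at h4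
  -- only the sets without the zero row count
  refine Eq.trans ?_ h4
  rw [← hX]
  unfold PP
  rw [← Finset.sum_subset (Finset.powerset_mono.2 (Finset.erase_subset 0 X))]
  · refine Finset.sum_congr rfl fun U hU => ?_
    rw [Finset.mem_powerset] at hU
    have hUX : U ⊆ Finset.univ.image M := by
      rw [← hX]
      exact hU.trans (Finset.erase_subset _ _)
    have hspan : span (ZMod 2) ((X.erase 0 : Finset (E → ZMod 2)) : Set (E → ZMod 2)) =
        span (ZMod 2) ((X : Finset (E → ZMod 2)) : Set (E → ZMod 2)) := by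
      refine le_antisymm (span_mono (Finset.coe_subset.2 (Finset.erase_subset _ _))) ?_
      rw [span_le]
      intro v hv
      by_cases h0 : v = 0
      · rw [h0]
        exact zero_mem _
      · exact subset_span (Finset.mem_coe.2 (Finset.mem_erase.2 ⟨h0, Finset.mem_coe.1 hv⟩))
    have h5 : Spans ⊥ (X.erase 0) U ↔ ex M U = 0 := by
      unfold Spans
      rw [bot_sup_eq, bot_sup_eq, hspan]
      constructor
      · intro h
        exact HV_span M U hUX (by rw [h, hX])
      · intro h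
        by_contra h6
        exact HV_notSpan M U hUX (by rw [← hX]; exact h6) h
    by_cases h6 : Spans ⊥ (X.erase 0) U
    · rw [if_pos h6, if_pos (h5.1 h6), mul_one]
      refine Finset.prod_congr rfl fun v hv => ?_
      rw [hx, if_neg (Finset.ne_of_mem_erase (hU hv))]
    · rw [if_neg h6, if_neg fun h => h6 (h5.2 h), mul_zero]
  · intro U hUX hU
    rw [Finset.mem_powerset] at hUX hU
    have h0 : (0 : E → ZMod 2) ∈ U := by
      by_contra h0
      apply hU
      intro v hv
      exact Finset.mem_erase.2 ⟨fun h => h0 (h ▸ hv), hUX hv⟩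
    rw [Finset.prod_eq_zero h0 (by rw [hx, if_pos rfl, sub_self]), zero_mul]

end

end Pool.Agent.SRH
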