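import Mathlib

/-!
# SRH, module Cramer (helper36): vectors with the entries `-1`, `0`, `1` in the span of short vectors

If `d` has the entries `-1, 0, 1` and lies in the rational span of vectors with the entries `-1, 0, 1`
whose products with `a` are at most `δ` in absolute value, then the product of `d` and `a` is at most
`k * k! * δ`, where `k` is the number of the coordinates.
-/

set_option autoImplicit false
set_option linter.unusedSectionVars false

open Submodule Matrix

namespace Pool.Agent.SRH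

/-- a square part with a determinant different from zero -/
theorem minor_ne {ι κ : Type} [Fintype ι] [DecidableEq ι] [Fintype κ] [DecidableEq κ]
    (A : Matrix ι κ ℚ) (hA : LinearIndependent ℚ A.row) :
    ∃ f : ι → κ, (A.submatrix id f).det ≠ 0 := by
  classical
  have h1 : A.rank = Fintype.card ι := LinearIndependent.rank_matrix hA
  obtain ⟨c, hc, hcs, hci⟩ := exists_linearIndependent ℚ (Set.range A.col)
  have h2 : Module.finrank ℚ (span ℚ (Set.range A.col)) = Fintype.card ι := by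
    rw [← h1, Matrix.rank_eq_finrank_span_cols]
  have hfin : c.Finite := (Set.finite_range _).subset hc
  haveI : Fintype c := hfin.fintype
  have h3 : Fintype.card c = Fintype.card ι := by
    rw [← h2, ← hcs]
    have h4 := finrank_span_eq_card hci
    rw [Subtype.range_coe] at h4
    exact h4.symm
  obtain ⟨e⟩ : Nonempty (ι ≃ c) := ⟨(Fintype.equivOfCardEq h3.symm)⟩
  choose f hf using fun j : ι => hc (e j).2
  refine ⟨f, ?_⟩
  have h5 : LinearIndependent ℚ (A.submatrix id f).col := by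
    have h6 : (A.submatrix id f).col = fun j => ((e j : c) : ι → ℚ) := by
      funext j
      rw [← hf j]
      rfl
    rw [h6]
    exact hci.comp e e.injective
  rw [Matrix.linearIndependent_cols_iff_isUnit, Matrix.isUnit_iff_isUnit_det] at h5
  exact h5.ne_zero

/-- **Cramer's rule**: the coefficients are at most `r!` -/
theorem coeff_le {ι κ : Type} [Fintype ι] [DecidableEq ι] [Fintype κ] [DecidableEq κ]
    (b : ι → κ → ℤ) (hb : ∀ j i, |b j i| ≤ 1)
    (hi : LinearIndependent ℚ fun j i => ((b j i : ℤ) : ℚ)) (d : κ → ℤ) (hd : ∀ i, |d i| ≤ 1)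
    (c : ι → ℚ) (hc : ∀ i, ((d i : ℤ) : ℚ) = ∑ j, c j * b j i) (j : ι) :
    |c j| ≤ (Fintype.card ι).factorial := by
  classical
  obtain ⟨f, hf⟩ := minor_ne (Matrix.of fun j i => ((b j i : ℤ) : ℚ)) hi
  obtain ⟨A, hA⟩ : ∃ A : Matrix ι ι ℤ, A = Matrix.of fun i j => b j (f i) := ⟨_, rfl⟩
  have hdet : A.det ≠ 0 := by
    intro h0
    apply hf
    have h1 : (Matrix.of fun j i => ((b j i : ℤ) : ℚ)).submatrix id f =
        (A.transpose).map (Int.castRingHom ℚ) := by
      ext l i
      rw [hA]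
      rfl
    rw [h1]
    have h2 := (Int.castRingHom ℚ).map_det A.transpose
    rw [det_transpose, h0, map_zero] at h2
    exact h2.symm
  obtain ⟨x, hx⟩ : ∃ x : ι → ℤ, x = cramer A (fun i => d (f i)) := ⟨_, rfl⟩
  -- the coefficients
  have h1 : ∀ i, ∑ l, (A i l : ℚ) * c l = d (f i) := by
    intro i
    rw [hc]
    refine Finset.sum_congr rfl fun l _ => ?_
    rw [hA, mul_comm]
    rfl
  have h2 : ∀ i, ∑ l, A i l * x l = A.det * d (f i) := by
    intro i
    have h3 := congrFun (Matrix.mulVec_cramer A (fun i => d (f i))) i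
    rw [← hx] at h3
    exact h3
  have h3 : ∀ l, (A.det : ℚ) * c l = x l := by
    have h4 : (A.map (Int.castRingHom ℚ)).det ≠ 0 := by
      have h5 := (Int.castRingHom ℚ).map_det A
      rw [RingHom.mapMatrix_apply] at h5
      rw [← h5]
      change ((A.det : ℤ) : ℚ) ≠ 0
      exact_mod_cast hdet
    have h5 : (A.map (Int.castRingHom ℚ)) *ᵥ (fun l => (A.det : ℚ) * c l - x l) = 0 := by
      funext i
      change ∑ l, ((A i l : ℤ) : ℚ) * ((A.det : ℚ) * c l - x l) = 0
      have h6 : ∑ l, ((A i l : ℤ) : ℚ) * ((A.det : ℚ) * c l - x l) =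
          A.det * ∑ l, (A i l : ℚ) * c l - ∑ l, (A i l : ℚ) * x l := by
        rw [Finset.mul_sum, ← Finset.sum_sub_distrib]
        exact Finset.sum_congr rfl fun l _ => by ring
      rw [h6, h1]
      have h7 := h2 i
      obtain ⟨D, hD⟩ : ∃ D : ℤ, D = A.det := ⟨_, rfl⟩
      rw [← hD] at h7 ⊢
      have h8 : ((∑ l, A i l * x l : ℤ) : ℚ) = ((D * d (f i) : ℤ) : ℚ) := by rw [h7]
      push_cast at h8
      rw [h8]
      ring
    have h6 := Matrix.eq_zero_of_mulVec_eq_zero h4 h5
    intro l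
    have h7 := congrFun h6 l
    change (A.det : ℚ) * c l - x l = 0 at h7
    linarith
  -- the size of the determinants
  have h4 : |x j| ≤ (Fintype.card ι).factorial := by
    rw [hx, cramer_apply]
    have h5 := Matrix.det_le (A := A.updateCol j fun i => d (f i)) (abv := AbsoluteValue.abs)
      (x := 1) (by
        intro i l
        change |A.updateCol j (fun i => d (f i)) i l| ≤ 1
        rw [Matrix.updateCol_apply]
        split_ifs
        · exact hd _
        · rw [hA]
          exact hb _ _)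
    rw [one_pow, nsmul_eq_mul, mul_one] at h5
    exact h5
  have h5 : (1 : ℚ) ≤ |(A.det : ℚ)| := by
    have h6 := Int.one_le_abs hdet
    exact_mod_cast h6
  have h6 : |(A.det : ℚ)| * |c j| ≤ (Fintype.card ι).factorial := by
    rw [← abs_mul, h3]
    exact_mod_cast h4
  calc |c j| = 1 * |c j| := (one_mul _).symm
    _ ≤ |(A.det : ℚ)| * |c j| := mul_le_mul_of_nonneg_right h5 (abs_nonneg _)
    _ ≤ _ := h6

/-- **The bound** -/
theorem span_bound {κ : Type} [Fintype κ] [DecidableEq κ] (R : Set (κ → ℤ))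
    (hR : ∀ d ∈ R, ∀ i, |d i| ≤ 1) (d : κ → ℤ) (hd : ∀ i, |d i| ≤ 1)
    (hs : (fun i => ((d i : ℤ) : ℚ)) ∈ span ℚ ((fun (d : κ → ℤ) i => ((d i : ℤ) : ℚ)) '' R))
    (a : κ → ℤ) (δ : ℕ) (ha : ∀ d ∈ R, |∑ i, d i * a i| ≤ δ) :
    |∑ i, d i * a i| ≤ (Fintype.card κ * (Fintype.card κ).factorial * δ : ℕ) := by
  classical
  obtain ⟨b, hbR, hbs, hbi⟩ := exists_linearIndependent ℚ
    ((fun (d : κ → ℤ) i => ((d i : ℤ) : ℚ)) '' R)
  haveI : Fintype b := hbi.setFinite.fintype
  rw [← hbs] at hs
  choose g hg hgb using fun j : b => hbR j.2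
  have hli : LinearIndependent ℚ fun (j : b) i => ((g j i : ℤ) : ℚ) := by
    have h1 : (fun (j : b) i => ((g j i : ℤ) : ℚ)) = ((↑) : b → κ → ℚ) := by
      funext j
      exact hgb j
    rw [h1]
    exact hbi
  have hcard : Fintype.card b ≤ Fintype.card κ := by
    have h1 := hbi.fintype_card_le_finrank
    rwa [Module.finrank_fintype_fun_eq_card] at h1
  obtain ⟨c, hc⟩ : ∃ c : b → ℚ, ∀ i, ((d i : ℤ) : ℚ) = ∑ j, c j * g j i := by
    have h1 : b = Set.range ((↑) : b → κ → ℚ) := Subtype.range_coe.symm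
    rw [h1, Submodule.mem_span_range_iff_exists_fun] at hs
    obtain ⟨c, hc⟩ := hs
    refine ⟨c, fun i => ?_⟩
    have h2 := congrFun hc i
    change _ = ((d i : ℤ) : ℚ) at h2
    rw [← h2, Finset.sum_apply]
    refine Finset.sum_congr rfl fun j _ => ?_
    have h3 := congrFun (hgb j) i
    change ((g j i : ℤ) : ℚ) = _ at h3
    rw [h3]
    rfl
  have hle : ∀ j, |c j| ≤ (Fintype.card κ).factorial := by
    intro j
    refine (coeff_le g (fun j i => hR _ (hg j) i) hli d hd c hc j).trans ?_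
    exact_mod_cast Nat.factorial_le hcard
  have h1 : ((∑ i, d i * a i : ℤ) : ℚ) = ∑ j, c j * ((∑ i, g j i * a i : ℤ) : ℚ) := by
    push_cast
    simp only [hc, Finset.sum_mul, Finset.mul_sum]
    rw [Finset.sum_comm]
    exact Finset.sum_congr rfl fun j _ => Finset.sum_congr rfl fun i _ => by ring
  have h2 : |((∑ i, d i * a i : ℤ) : ℚ)| ≤
      (Fintype.card κ * (Fintype.card κ).factorial * δ : ℕ) := by
    rw [h1]
    refine (Finset.abs_sum_le_sum_abs _ _).trans ?_
    have h3 : ∀ j ∈ (Finset.univ : Finset b), |c j * ((∑ i, g j i * a i : ℤ) : ℚ)| ≤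
        (Fintype.card κ).factorial * δ := by
      intro j _
      rw [abs_mul]
      refine mul_le_mul (hle j) ?_ (abs_nonneg _) (by positivity)
      have h4 := ha _ (hg j)
      have h5 : ((|∑ i, g j i * a i| : ℤ) : ℚ) ≤ ((δ : ℤ) : ℚ) := by exact_mod_cast h4
      rw [Int.cast_abs] at h5
      exact_mod_cast h5
    refine (Finset.sum_le_card_nsmul _ _ _ h3).trans ?_
    rw [nsmul_eq_mul, Finset.card_univ]
    push_cast
    rw [mul_assoc]
    refine mul_le_mul_of_nonneg_right ?_ (by positivity)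
    exact_mod_cast hcard
  have h3 : ((|∑ i, d i * a i| : ℤ) : ℚ) ≤
      (((Fintype.card κ * (Fintype.card κ).factorial * δ : ℕ) : ℤ) : ℚ) := by
    rw [Int.cast_abs]
    exact_mod_cast h2
  exact_mod_cast h3

/-- **An integral vector** orthogonal to the given vectors and not orthogonal to finitely many vectors
outside of their span -/
theorem exists_u {κ : Type} [Fintype κ] [DecidableEq κ] (R : Set (κ → ℚ)) (F : Finset (κ → ℚ))
    (h : ∀ w ∈ F, w ∉ span ℚ R) :
    ∃ u : κ → ℤ, (∀ w ∈ F, ∑ i, w i * ((u i : ℤ) : ℚ) ≠ 0) ∧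
      ∀ d ∈ span ℚ R, ∑ i, d i * ((u i : ℤ) : ℚ) = 0 := by
  classical
  obtain ⟨φ, hφ, hφ0⟩ := Module.Dual.exists_forall_mem_ne_zero_of_forall_exists
    (K := ℚ) (ι := F) (span ℚ R).dualAnnihilator
    (fun w => Module.Dual.eval ℚ (κ → ℚ) (w : κ → ℚ))
    (fun w => by
      obtain ⟨f, hf, hf'⟩ := Submodule.exists_dual_map_eq_bot_of_notMem (h w w.2) inferInstance
      refine ⟨f, ?_, hf⟩
      rw [Submodule.mem_dualAnnihilator]
      intro x hx
      have h1 : f x ∈ (span ℚ R).map f := ⟨x, hx, rfl⟩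
      rw [hf'] at h1
      exact h1)
  rw [Submodule.mem_dualAnnihilator] at hφ
  obtain ⟨M, hM⟩ : ∃ M : ℕ, M = ∏ i : κ, (φ (Pi.single i 1)).den := ⟨_, rfl⟩
  have hM0 : M ≠ 0 := by
    rw [hM]
    exact Finset.prod_ne_zero_iff.2 fun i _ => (φ (Pi.single i 1)).den_ne_zero
  have hint : ∀ i : κ, ∃ m : ℤ, (m : ℚ) = M * φ (Pi.single i 1) := by
    intro i
    obtain ⟨d, hd⟩ : (φ (Pi.single i 1)).den ∣ M := by
      rw [hM]
      exact Finset.dvd_prod_of_mem _ (Finset.mem_univ i)
    refine ⟨d * (φ (Pi.single i 1)).num, ?_⟩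
    have h1 := Rat.mul_den_eq_num (φ (Pi.single i 1))
    rw [hd]
    push_cast
    rw [← h1]
    ring
  choose u hu using hint
  have hS : ∀ w : κ → ℚ, ∑ i, w i * ((u i : ℤ) : ℚ) = M * φ w := by
    intro w
    have h1 : φ w = ∑ i, w i * φ (Pi.single i 1) := by
      have h2 : w = ∑ i, w i • Pi.single i (1 : ℚ) := by
        funext j
        rw [Finset.sum_apply]
        simp [Pi.single_apply]
      conv_lhs => rw [h2]
      rw [map_sum]
      exact Finset.sum_congr rfl fun i _ => by rw [map_smul, smul_eq_mul]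
    rw [h1, Finset.mul_sum]
    refine Finset.sum_congr rfl fun i _ => ?_
    rw [hu]
    ring
  refine ⟨u, fun w hw => ?_, fun d hd => ?_⟩
  · rw [hS]
    exact mul_ne_zero (by exact_mod_cast hM0) (hφ0 ⟨w, hw⟩)
  · rw [hS, hφ d hd, mul_zero]

end Pool.Agent.SRH
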