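import Mathlib
import Pool.Agent.SRH.HV

/-!
# SRH, module HK (helper36): knots and knotoids, the polynomial of the spanning sets vanishes on the
annihilator of the short vectors

The number `B` bounds the number of the nonzero coefficients, so `B` may be any bound for the sum of
their absolute values.
-/

set_option autoImplicit false
set_option linter.unusedSectionVars false

open Module Matrix Submodule Pool.Agent.UNI LaurentPolynomial Pool.Agent.SPT Pool.Agent.SPT.Rel
  Pool.Agent.SPT.Lin

namespace Pool.Agent.SRH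

open Pool.Agent.Helper16.Knotoid

/-! ### integer coefficients to complex coefficients -/

/-- the change of coefficients -/
noncomputable def toC : ℤ[T;T⁻¹] →+* ℂ[T;T⁻¹] :=
  AddMonoidAlgebra.mapRingHom ℤ (Int.castRingHom ℂ)

theorem toC_coeff (f : ℤ[T;T⁻¹]) (n : ℤ) : (toC f).coeff n = ((f.coeff n : ℤ) : ℂ) := by
  unfold toC
  rw [AddMonoidAlgebra.coeff_mapRingHom]
  rfl

theorem toC_T (n : ℤ) : toC (T n) = T n := by
  apply LaurentPolynomial.ext
  intro m
  rw [toC_coeff, T_apply, T_apply]
  split_ifs <;> simp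

/-- the number of the nonzero coefficients does not change -/
theorem toC_card (f : ℤ[T;T⁻¹]) : (toC f).coeff.support.card = f.coeff.support.card := by
  congr 1
  ext n
  rw [Finsupp.mem_support_iff, Finsupp.mem_support_iff, toC_coeff]
  norm_cast

/-- the number of the nonzero coefficients is at most the coefficient sum -/
theorem card_le_coeffSum (f : ℤ[T;T⁻¹]) : (f.coeff.support.card : ℤ) ≤ coeffSum f := by
  unfold coeffSum
  calc (f.coeff.support.card : ℤ) = ∑ i ∈ f.coeff.support, (1 : ℤ) := by simp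
    _ ≤ ∑ i ∈ f.coeff.support, |f.coeff i| := by
        refine Finset.sum_le_sum fun i hi => ?_
        exact Int.one_le_abs (Finsupp.mem_support_iff.1 hi)

variable {n : ℕ}

theorem toC_bracket (D : GaussDiagram n) (σ : Fin n → Bool) :
    toC D.bracket = Lin.SS ℂ (D.gmat σ) σ := by
  unfold GaussDiagram.bracket GaussDiagram.stateSign Lin.SS
  rw [map_sum]
  refine Finset.sum_congr rfl fun s _ => ?_
  rw [map_mul, map_pow, map_sub, map_neg, toC_T, toC_T, toC_T, D.comps_eq, gmat_SM D σ s,
    Nat.add_sub_cancel_left, T_sum']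
  have h1 : ∏ c, T (if s c then (1 : ℤ) else -1) = ∏ c, al ℂ (s c) := by
    refine Finset.prod_congr rfl fun c _ => ?_
    unfold al
    cases s c
    · simp only [Bool.false_eq_true, if_false]
    · simp only [if_true]
  rw [h1]
  rfl

/-- the supports of `f` and of the product with a monomial and a sign have the same size -/
theorem card_mul_T' (f : ℂ[T;T⁻¹]) (m : ℤ) (j : ℕ) :
    f.coeff.support.card ≤ ((-1) ^ j * T m * f).coeff.support.card := by
  have h1 : ∀ i, (T m * f).coeff (m + i) = f.coeff i := by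
    intro i
    have h2 := AddMonoidAlgebra.coeff_mul (T m : ℂ[T;T⁻¹]) f (m + i)
    rw [h2]
    unfold LaurentPolynomial.T
    rw [AddMonoidAlgebra.coeff_single, Finsupp.sum_single_index]
    · simp only [add_right_inj, one_mul]
      rw [Finsupp.sum_ite_eq']
      split_ifs with h
      · rfl
      · rw [Finsupp.mem_support_iff, not_not] at h
        exact h.symm
    · simp
  have h3 : f.coeff.support.card ≤ (T m * f).coeff.support.card := by
    refine Finset.card_le_card_of_injOn (fun j => m + j) ?_ ?_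
    · intro j hj
      rw [Finset.mem_coe, Finsupp.mem_support_iff] at hj ⊢
      rw [h1]
      exact hj
    · intro a _ b _ h
      exact add_left_cancel h
  have h4 : ((-1) ^ j * T m * f).coeff.support = (T m * f).coeff.support := by
    rcases neg_one_pow_eq_or ℂ[T;T⁻¹] j with h | h
    · rw [h, one_mul]
    · rw [h, neg_one_mul, neg_mul]
      ext i
      rw [Finsupp.mem_support_iff, Finsupp.mem_support_iff]
      have h5 : (-(T m * f) : ℂ[T;T⁻¹]).coeff i = -((T m * f : ℂ[T;T⁻¹]).coeff i) := rfl
      rw [h5, neg_ne_zero]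
  rw [h4]
  exact h3

theorem card_SSC (D : GaussDiagram n) (σ : Fin n → Bool) (B : ℕ)
    (hB : D.normalizedBracket.coeff.support.card ≤ B) :
    (Lin.SS ℂ (D.gmat σ) σ).coeff.support.card ≤ B := by
  refine le_trans ?_ hB
  rw [← toC_card]
  unfold GaussDiagram.normalizedBracket
  rw [map_mul, map_mul, map_pow, map_neg, map_one, toC_T, toC_bracket D σ]
  exact card_mul_T' _ _ _

/-- the rank of the matrix is not zero if two chords cross -/
theorem rank_ne (D : GaussDiagram n) (σ : Fin n → Bool) (h : (rows (D.Cut σ)).erase 0 ≠ ∅) :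
    (D.gmat σ).rank ≠ 0 := by
  classical
  obtain ⟨v, hv⟩ := Finset.nonempty_iff_ne_empty.2 h
  rw [Finset.mem_erase] at hv
  obtain ⟨hv0, hv⟩ := hv
  unfold rows at hv
  obtain ⟨c, -, rfl⟩ := Finset.mem_image.1 hv
  rw [row_eq] at hv0
  intro h0
  have h1 : (D.gmat σ).row c ∈ span (ZMod 2) (Set.range (D.gmat σ).row) :=
    subset_span ⟨c, rfl⟩
  rw [Matrix.rank_eq_finrank_span_row] at h0
  rw [Submodule.finrank_eq_zero] at h0
  rw [h0, Submodule.mem_bot] at h1
  exact hv0 h1

/-- **The polynomial of the spanning sets vanishes, knotoid diagrams** -/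
theorem knotoidH (D : GaussDiagram n) (σ : Fin n → Bool) (B N : ℕ)
    (hB : D.normalizedBracket.coeff.support.card ≤ B)
    (hN : 2 * (B + 2) * ((D.gmat σ).rank + 1) ≤ N)
    (hne : (rows (D.Cut σ)).erase 0 ≠ ∅) (y : (Fin n → ZMod 2) → ℂ) (hy0 : ∀ v, y v ≠ 0)
    (hy : ∀ d, Small ((rows (D.Cut σ)).erase 0) (twist (D.Cut σ) σ) N d →
      ∏ v ∈ (rows (D.Cut σ)).erase 0, y v ^ d v = 1) :
    PP ((rows (D.Cut σ)).erase 0) ⊥ y = 0 := by
  classical
  have hr := rank_ne D σ hne
  have hrows : rows (D.Cut σ) = Finset.univ.image (D.gmat σ) := by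
    unfold rows
    exact Finset.image_congr fun c _ => row_eq D σ c
  have htw : ∀ v, twist (D.Cut σ) σ v = tw (D.gmat σ) σ v := by
    intro v
    unfold twist tw SPT.signedCount
    refine Finset.sum_congr ?_ fun _ _ => rfl
    ext c
    rw [Finset.mem_filter, Finset.mem_filter, row_eq]
  have htw' : twist (D.Cut σ) σ = tw (D.gmat σ) σ := funext htw
  rw [hrows, htw'] at hy
  rw [hrows]
  exact HV_main (D.gmat σ) (D.gmat_symm σ) σ hr B N (card_SSC D σ B hB) hN y hy0 hy

/-- **The polynomial of the spanning sets vanishes, knot diagrams** -/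
theorem knotH (g : GaussJones.Code n) (e σ : Fin n → Bool) (B N : ℕ)
    (hB : (GaussJones.fPoly g e).coeff.support.card ≤ B)
    (hN : 2 * (B + 2) * (((cutOpen g e).gmat σ).rank + 1) ≤ N)
    (hne : (rows (GaussJones.Cut g e σ)).erase 0 ≠ ∅) (y : (Fin n → ZMod 2) → ℂ)
    (hy0 : ∀ v, y v ≠ 0)
    (hy : ∀ d, Small ((rows (GaussJones.Cut g e σ)).erase 0) (twist (GaussJones.Cut g e σ) σ) N d →
      ∏ v ∈ (rows (GaussJones.Cut g e σ)).erase 0, y v ^ d v = 1) :
    PP ((rows (GaussJones.Cut g e σ)).erase 0) ⊥ y = 0 := by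
  rcases Nat.eq_zero_or_pos n with hn | hn
  · subst hn
    exfalso
    apply hne
    have h1 : rows (GaussJones.Cut g e σ) = ∅ := by
      unfold rows
      rw [Finset.univ_eq_empty, Finset.image_empty]
    rw [h1, Finset.erase_empty]
  · have h1 : GaussJones.Cut g e σ = (cutOpen g e).Cut σ := by
      funext i j
      exact propext (cut_closed g e σ i j)
    rw [h1] at hne hy ⊢
    rw [f_closed hn] at hB
    exact knotoidH (cutOpen g e) σ B N hB hN hne y hy0 hy

end Pool.Agent.SRH
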