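import Mathlib
import Pool.Agent.SRH.HK
import Pool.Agent.SRH.Cramer

/-!
# SRH, module FOL (helper36): the interface for the theorems on blocks

If `f` has at most `B` nonzero coefficients, then there is an integral vector `u` which follows the
twists of the classes, with linear and factorial thresholds, such that the polynomial of the classes
with the weights `z ^ u` vanishes for all `z` on the unit circle.
-/

set_option autoImplicit false
set_option linter.unusedSectionVars false

open Module Matrix Submodule Pool.Agent.UNI LaurentPolynomial Pool.Agent.SPT Pool.Agent.SPT.Rel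
  Pool.Agent.SPT.Lin

namespace Pool.Agent.SRH

open Pool.Agent.Helper16.Knotoid

/-- the products with a vector with the values in `{-1, 0, 1}` over a set and over its type -/
private theorem FOL_sum {V : Type} [DecidableEq V] (X : Finset V) (d a : V → ℤ) :
    ∑ i : X, d (i : V) * a (i : V) = ∑ v ∈ X, d v * a v :=
  Finset.sum_coe_sort X fun v => d v * a v

/-- **Followers**: there is an integral vector `u` orthogonal to all short vectors such that two sets
with the same sum of `u` have sums of `a` which differ by less than `T`. -/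
theorem exists_follows {V : Type} [DecidableEq V] (X : Finset V) (a : V → ℤ) (N T : ℕ) (hN : 1 ≤ N)
    (hT : X.card * X.card.factorial * (N - 1) < T) :
    ∃ u : V → ℤ, (∀ d, Small X a N d → ∑ v ∈ X, u v * d v = 0) ∧ Follows X a u (N - 1) T := by
  classical
  obtain ⟨R, hR⟩ : ∃ R : Set (X → ℤ), R = {d | ∃ d' : V → ℤ, Small X a N d' ∧
    ∀ i : X, d i = d' i} := ⟨_, rfl⟩
  obtain ⟨Q, hQ⟩ : ∃ Q : Set (X → ℚ), Q = (fun (d : X → ℤ) i => ((d i : ℤ) : ℚ)) '' R := ⟨_, rfl⟩
  obtain ⟨F, hF⟩ : ∃ F : Finset (X → ℚ), F =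
    (Fintype.piFinset fun _ => ({-1, 0, 1} : Finset ℚ)).filter fun w => w ∉ span ℚ Q := ⟨_, rfl⟩
  obtain ⟨u, hu1, hu2⟩ := exists_u Q F fun w hw => by
    rw [hF, Finset.mem_filter] at hw
    exact hw.2
  obtain ⟨u', hu'⟩ : ∃ u' : V → ℤ, ∀ i : X, u' i = u i :=
    ⟨fun v => if h : v ∈ X then u ⟨v, h⟩ else 0, fun i => by
      show (if h : (i : V) ∈ X then u ⟨i, h⟩ else 0) = u i
      rw [dif_pos i.2]⟩
  have hRb : ∀ d ∈ R, ∀ i, |d i| ≤ 1 := by
    intro d hd i
    rw [hR] at hd
    obtain ⟨d', hd', h⟩ := hd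
    rw [h i]
    rcases hd'.1 i with h1 | h1 | h1 <;> rw [h1] <;> simp
  have hRa : ∀ d ∈ R, |∑ i, d i * a i| ≤ ((N - 1 : ℕ) : ℤ) := by
    intro d hd
    rw [hR] at hd
    obtain ⟨d', hd', h⟩ := hd
    have h1 : ∑ i : X, d i * a i = ∑ v ∈ X, d' v * a v := by
      rw [← FOL_sum X d' a]
      refine Finset.sum_congr rfl fun i _ => ?_
      rw [h i]
    rw [h1]
    have h2 := hd'.2.2
    omega
  have hsum : ∀ d : V → ℤ, ((∑ v ∈ X, u' v * d v : ℤ) : ℚ) =
      ∑ i : X, ((d i : ℤ) : ℚ) * ((u i : ℤ) : ℚ) := by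
    intro d
    rw [← Finset.sum_coe_sort X fun v => u' v * d v]
    push_cast
    refine Finset.sum_congr rfl fun i _ => ?_
    rw [hu' i]
    ring
  have horth : ∀ d, Small X a N d → ∑ v ∈ X, u' v * d v = 0 := by
    intro d hd
    have h1 := hsum d
    rw [hu2 (fun i => ((d i : ℤ) : ℚ)) (subset_span (by
      rw [hQ, hR]
      exact ⟨fun i => d i, ⟨d, hd, fun _ => rfl⟩, rfl⟩))] at h1
    exact_mod_cast h1
  refine ⟨u', horth, ?_⟩
  intro S hS S' hS'
  have hdi : ∀ v, di S S' v = -1 ∨ di S S' v = 0 ∨ di S S' v = 1 := by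
    intro v
    unfold di
    by_cases h1 : v ∈ S <;> by_cases h2 : v ∈ S' <;> simp [h1, h2]
  have hd0 : ∀ v, v ∉ X → di S S' v = 0 := by
    intro v hv
    unfold di
    rw [if_neg fun h => hv (hS h), if_neg fun h => hv (hS' h), sub_self]
  have ha : ∑ v ∈ X, di S S' v * a v = ∑ v ∈ S, a v - ∑ v ∈ S', a v := by
    have h1 := sum_di X S S' hS hS' a
    simp only [Int.cast_id] at h1
    rw [← h1]
    exact Finset.sum_congr rfl fun v _ => mul_comm _ _
  have hu : ∑ v ∈ X, u' v * di S S' v = ∑ v ∈ S, u' v - ∑ v ∈ S', u' v := by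
    have h1 := sum_di X S S' hS hS' u'
    simp only [Int.cast_id] at h1
    exact h1
  constructor
  · intro hlong heq
    have h1 : (fun i : X => ((di S S' i : ℤ) : ℚ)) ∈ span ℚ Q := by
      by_contra h2
      refine hu1 (fun i : X => ((di S S' i : ℤ) : ℚ)) ?_ ?_
      · rw [hF, Finset.mem_filter, Fintype.mem_piFinset]
        refine ⟨fun i => ?_, h2⟩
        rcases hdi i with h | h | h <;> simp [h]
      · rw [← hsum, hu, heq, sub_self, Int.cast_zero]
    rw [hQ] at h1
    have h2 := span_bound R hRb (fun i : X => di S S' i) (fun i => by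
      show |di S S' i| ≤ 1
      rcases hdi i with h | h | h <;> rw [h] <;> simp) h1 (fun i : X => a i) (N - 1) hRa
    rw [FOL_sum, ha, Fintype.card_coe] at h2
    have h3 : ((X.card * X.card.factorial * (N - 1) : ℕ) : ℤ) < (T : ℤ) := by exact_mod_cast hT
    omega
  · intro hshort
    have h1 := horth (di S S') ⟨hdi, hd0, by
      rw [ha]
      omega⟩
    rw [hu] at h1
    omega

/-- the thresholds: `N = 2 (B + 2) (k + 1)`, `T = 2 (B + 2) (k + 2)!` -/
theorem FOL_le (k B : ℕ) : k * k.factorial * (2 * (B + 2) * (k + 1) - 1) <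
    2 * (B + 2) * (k + 2).factorial := by
  have h1 : (k + 2).factorial = (k + 2) * ((k + 1) * k.factorial) := by
    rw [Nat.factorial_succ, Nat.factorial_succ]
  have h2 : 0 < k.factorial := Nat.factorial_pos k
  have h3 : k * k.factorial * (2 * (B + 2) * (k + 1) - 1) ≤
      k * k.factorial * (2 * (B + 2) * (k + 1)) := Nat.mul_le_mul_left _ (Nat.sub_le _ _)
  refine h3.trans_lt ?_
  rw [h1]
  have h4 : k * k.factorial * (2 * (B + 2) * (k + 1)) =
      2 * (B + 2) * (k * ((k + 1) * k.factorial)) := by ring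
  rw [h4]
  refine Nat.mul_lt_mul_of_pos_left ?_ (by omega)
  exact Nat.mul_lt_mul_of_pos_right (by omega) (by positivity)

variable {n : ℕ}

/-- the rank is at most the number of the nonzero rows -/
theorem rank_le (D : GaussDiagram n) (σ : Fin n → Bool) :
    (D.gmat σ).rank ≤ ((rows (D.Cut σ)).erase 0).card := by
  classical
  have hrows : rows (D.Cut σ) = Finset.univ.image (D.gmat σ) := by
    unfold rows
    exact Finset.image_congr fun c _ => row_eq D σ c
  have h1 : span (ZMod 2) (Set.range (D.gmat σ).row) ≤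
      span (ZMod 2) (((rows (D.Cut σ)).erase 0 : Finset (Fin n → ZMod 2)) : Set _) := by
    rw [span_le]
    rintro v ⟨c, rfl⟩
    by_cases h0 : (D.gmat σ).row c = 0
    · rw [h0]
      exact zero_mem _
    · refine subset_span (Finset.mem_coe.2 (Finset.mem_erase.2 ⟨h0, ?_⟩))
      rw [hrows]
      exact Finset.mem_image_of_mem _ (Finset.mem_univ c)
  have h2 := Submodule.finrank_mono h1
  rw [← Matrix.rank_eq_finrank_span_row] at h2
  exact h2.trans (finrank_span_finset_le_card _)

/-- **Followers, knotoid diagrams** -/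
theorem knotoidFOL (D : GaussDiagram n) (σ : Fin n → Bool) (B k : ℕ)
    (hB : D.normalizedBracket.coeff.support.card ≤ B)
    (hk : ((rows (D.Cut σ)).erase 0).card ≤ k) (hne : (rows (D.Cut σ)).erase 0 ≠ ∅) :
    ∃ u : (Fin n → ZMod 2) → ℤ,
      (∀ d, Small ((rows (D.Cut σ)).erase 0) (twist (D.Cut σ) σ) (2 * (B + 2) * (k + 1)) d →
        ∑ v ∈ (rows (D.Cut σ)).erase 0, u v * d v = 0) ∧
      Follows ((rows (D.Cut σ)).erase 0) (twist (D.Cut σ) σ) u (2 * (B + 2) * (k + 1) - 1)
        (2 * (B + 2) * (k + 2).factorial) ∧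
      ¬ NZu ((rows (D.Cut σ)).erase 0) u := by
  classical
  obtain ⟨X, hX⟩ : ∃ X, X = (rows (D.Cut σ)).erase 0 := ⟨_, rfl⟩
  have hrk : (D.gmat σ).rank ≤ k := (rank_le D σ).trans hk
  have hN : 2 * (B + 2) * ((D.gmat σ).rank + 1) ≤ 2 * (B + 2) * (k + 1) :=
    Nat.mul_le_mul_left _ (by omega)
  obtain ⟨u, hu, hF⟩ := exists_follows X (twist (D.Cut σ) σ) (2 * (B + 2) * (k + 1))
    (2 * (B + 2) * (k + 2).factorial) (by
      have h1 : 0 < 2 * (B + 2) * (k + 1) := by positivity
      exact h1) (by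
      refine lt_of_le_of_lt ?_ (FOL_le k B)
      refine Nat.mul_le_mul_right _ ?_
      rw [hX]
      exact Nat.mul_le_mul hk (Nat.factorial_le hk))
  rw [hX] at hu hF
  refine ⟨u, hu, hF, ?_⟩
  rintro ⟨z, hz, hz1⟩
  have hz0 : z ≠ 0 := by
    intro h0
    rw [h0, norm_zero] at hz
    exact zero_ne_one hz
  apply hz1
  refine knotoidH D σ B _ hB hN hne (fun v => z ^ u v) (fun v => zpow_ne_zero _ hz0) ?_
  intro d hd
  have h1 : ∀ v ∈ (rows (D.Cut σ)).erase 0, (z ^ u v) ^ d v = z ^ (u v * d v) := by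
    intro v _
    rw [_root_.zpow_mul]
  rw [Finset.prod_congr rfl h1]
  have h2 : ∀ s : Finset (Fin n → ZMod 2), ∏ v ∈ s, z ^ (u v * d v) = z ^ (∑ v ∈ s, u v * d v) := by
    intro s
    induction s using Finset.induction_on with
    | empty => rw [Finset.prod_empty, Finset.sum_empty, _root_.zpow_zero]
    | insert a s ha ih => rw [Finset.prod_insert ha, Finset.sum_insert ha, zpow_add₀ hz0, ih]
  rw [h2, hu d hd, _root_.zpow_zero]

/-- **Followers, knot diagrams** -/
theorem knotFOL (g : GaussJones.Code n) (e σ : Fin n → Bool) (B k : ℕ)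
    (hB : (GaussJones.fPoly g e).coeff.support.card ≤ B)
    (hk : ((rows (GaussJones.Cut g e σ)).erase 0).card ≤ k)
    (hne : (rows (GaussJones.Cut g e σ)).erase 0 ≠ ∅) :
    ∃ u : (Fin n → ZMod 2) → ℤ,
      (∀ d, Small ((rows (GaussJones.Cut g e σ)).erase 0) (twist (GaussJones.Cut g e σ) σ)
        (2 * (B + 2) * (k + 1)) d → ∑ v ∈ (rows (GaussJones.Cut g e σ)).erase 0, u v * d v = 0) ∧
      Follows ((rows (GaussJones.Cut g e σ)).erase 0) (twist (GaussJones.Cut g e σ) σ) u
        (2 * (B + 2) * (k + 1) - 1) (2 * (B + 2) * (k + 2).factorial) ∧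
      ¬ NZu ((rows (GaussJones.Cut g e σ)).erase 0) u := by
  rcases Nat.eq_zero_or_pos n with hn | hn
  · subst hn
    exfalso
    apply hne
    have h1 : rows (GaussJones.Cut g e σ) = ∅ := by
      unfold rows
      rw [Finset.univ_eq_empty, Finset.image_empty]
    rw [h1, Finset.erase_empty]
  · have h1 : GaussJones.Cut g e σ = (cutOpen g e).Cut σ := by
      funext i j
      exact propext (cut_closed g e σ i j)
    rw [h1] at hk hne ⊢
    rw [f_closed hn] at hB
    exact knotoidFOL (cutOpen g e) σ B k hB hk hne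

end Pool.Agent.SRH
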