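import Mathlib
import Pool.Agent.NHT.Defs

/-!
# SRH, module Cyc (helper36): cycles of classes and spans of rows

`S` contains one crossing of every class, `r i` is the row of `i`. The rows of `S \ J` span the space of
the rows if and only if the classes of `J` contain no cycle. If `i` lies in a cycle `C` of classes, then
the row of `i` is not in the span of the rows of classes outside of `C`.
-/

set_option autoImplicit false
set_option linter.unusedSectionVars false

open Submodule

namespace Pool.Agent.SRH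

variable {ι V : Type} [DecidableEq ι] [DecidableEq V] [AddCommGroup V] [Module (ZMod 2) V]

/-- the row of a class of a cycle is not in the span of the rows of the classes outside of the cycle -/
theorem notMem_span {S : Finset ι} {Cyc : Finset ι → Prop} {r : ι → V}
    (hC : ∀ J ⊆ S, (∀ i, r i ∈ span (ZMod 2) (r '' ((S \ J : Finset ι) : Set ι))) ↔ ¬ Cyc J)
    {C : Finset ι} (hCS : C ⊆ S) {i : ι} (hi : i ∈ C) (hc : Cyc C) (hc' : ¬ Cyc (C.erase i))
    {P : Set ι} (hP : P ⊆ ((S \ C : Finset ι) : Set ι)) : r i ∉ span (ZMod 2) (r '' P) := by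
  intro h
  have h1 : r i ∈ span (ZMod 2) (r '' ((S \ C : Finset ι) : Set ι)) :=
    span_mono (Set.image_mono hP) h
  have h2 := (hC (C.erase i) ((Finset.erase_subset i C).trans hCS)).2 hc'
  have h3 : span (ZMod 2) (r '' ((S \ C.erase i : Finset ι) : Set ι)) ≤
      span (ZMod 2) (r '' ((S \ C : Finset ι) : Set ι)) := by
    rw [span_le]
    rintro _ ⟨j, hj, rfl⟩
    rw [Finset.mem_coe, Finset.mem_sdiff, Finset.mem_erase, not_and_or, not_not] at hj
    rcases hj with ⟨hjS, rfl | hj⟩
    · exact h1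
    · exact subset_span ⟨j, Finset.mem_coe.2 (Finset.mem_sdiff.2 ⟨hjS, hj⟩), rfl⟩
  exact (hC C hCS).1 (fun j => h3 (h2 j)) hc

/-- **a cycle which avoids a set of classes** -/
theorem notMem_span_of_inCycle {S : Finset ι} {Cyc : Finset ι → Prop} {r : ι → V}
    (hC : ∀ J ⊆ S, (∀ i, r i ∈ span (ZMod 2) (r '' ((S \ J : Finset ι) : Set ι))) ↔ ¬ Cyc J)
    {P : Finset ι} (hPS : P ⊆ S) {i : ι} (hi : NHT.InCycle Cyc P i) {Q : Finset ι} (hQS : Q ⊆ S)
    (hPQ : Disjoint P Q) : r i ∉ span (ZMod 2) (r '' (Q : Set ι)) := by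
  obtain ⟨C, hCP, hiC, hc, hc'⟩ := hi
  refine notMem_span hC (hCP.trans hPS) hiC hc hc' ?_
  intro j hj
  rw [Finset.mem_coe] at hj ⊢
  rw [Finset.mem_sdiff]
  refine ⟨hQS hj, fun h => ?_⟩
  exact (Finset.disjoint_left.1 hPQ (hCP h)) hj

/-- the rows of the classes which satisfy a condition -/
theorem image_filter {S : Finset ι} {r : ι → V} {A : V → ℤ} {a : ι → ℤ} (hA : ∀ i ∈ S, A (r i) = a i)
    (P : Finset ι) (hP : P ⊆ S) (φ : ℤ → Prop) [DecidablePred φ] :
    {x : V | x ∈ P.image r ∧ φ (A x)} = r '' ((P.filter fun j => φ (a j) : Finset ι) : Set ι) := by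
  ext x
  rw [Set.mem_ofPred_eq, Finset.mem_image, Set.mem_image]
  constructor
  · rintro ⟨⟨j, hj, rfl⟩, h⟩
    rw [hA j (hP hj)] at h
    exact ⟨j, Finset.mem_coe.2 (Finset.mem_filter.2 ⟨hj, h⟩), rfl⟩
  · rintro ⟨j, hj, rfl⟩
    rw [Finset.mem_coe, Finset.mem_filter] at hj
    exact ⟨⟨j, hj.1, rfl⟩, by rw [hA j (hP hj.1)]; exact hj.2⟩

/-- **Adequate blocks on the level of the rows** -/
theorem adequate_rows {S : Finset ι} {Cyc : Finset ι → Prop} {r : ι → V}
    (hC : ∀ J ⊆ S, (∀ i, r i ∈ span (ZMod 2) (r '' ((S \ J : Finset ι) : Set ι))) ↔ ¬ Cyc J)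
    {A : V → ℤ} {a : ι → ℤ} (hA : ∀ i ∈ S, A (r i) = a i) (p : ι → ℕ) (T q : ℕ)
    (h : NHT.AdequateBlock S Cyc a p T q) :
    (∀ v ∈ (S.filter fun i => p i = q).image r, (T : ℤ) ≤ |A v|) ∧
      ((∀ v ∈ (S.filter fun i => p i = q).image r, A v < 0 →
        v ∉ span (ZMod 2) {x : V | x ∈ (S.filter fun i => p i = q).image r ∧ 0 < A x}) ∨
      ∀ v ∈ (S.filter fun i => p i = q).image r, 0 < A v →
        v ∉ span (ZMod 2) {x : V | x ∈ (S.filter fun i => p i = q).image r ∧ A x < 0}) := by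
  obtain ⟨h1, h2⟩ := h
  obtain ⟨P, hP⟩ : ∃ P : Finset ι, P = S.filter fun i => p i = q := ⟨_, rfl⟩
  have hPS : P ⊆ S := by
    rw [hP]
    exact Finset.filter_subset _ _
  have hff : ∀ φ : ℤ → Prop, ∀ [DecidablePred φ], (S.filter fun j => p j = q ∧ φ (a j)) =
      P.filter fun j => φ (a j) := by
    intro φ _
    rw [hP, Finset.filter_filter]
  rw [← hP]
  constructor
  · intro v hv
    obtain ⟨i, hi, rfl⟩ := Finset.mem_image.1 hv
    rw [hA i (hPS hi)]
    rw [hP, Finset.mem_filter] at hi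
    exact h1 i hi.1 hi.2
  · rcases h2 with h2 | h2
    · left
      intro v hv hv0
      obtain ⟨i, hi, rfl⟩ := Finset.mem_image.1 hv
      rw [hA i (hPS hi)] at hv0
      have hi' := hi
      rw [hP, Finset.mem_filter] at hi'
      have h3 := h2 i hi'.1 hi'.2 hv0
      rw [hff (fun x => x < 0)] at h3
      rw [image_filter hA P hPS fun x => 0 < x]
      refine notMem_span_of_inCycle hC ((Finset.filter_subset _ _).trans hPS) h3
        ((Finset.filter_subset _ _).trans hPS) ?_
      rw [Finset.disjoint_left]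
      intro j hj hj'
      exact lt_asymm (Finset.mem_filter.1 hj).2 (Finset.mem_filter.1 hj').2
    · right
      intro v hv hv0
      obtain ⟨i, hi, rfl⟩ := Finset.mem_image.1 hv
      rw [hA i (hPS hi)] at hv0
      have hi' := hi
      rw [hP, Finset.mem_filter] at hi'
      have h3 := h2 i hi'.1 hi'.2 hv0
      rw [hff (fun x => 0 < x)] at h3
      rw [image_filter hA P hPS fun x => x < 0]
      refine notMem_span_of_inCycle hC ((Finset.filter_subset _ _).trans hPS) h3
        ((Finset.filter_subset _ _).trans hPS) ?_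
      rw [Finset.disjoint_left]
      intro j hj hj'
      exact lt_asymm (Finset.mem_filter.1 hj).2 (Finset.mem_filter.1 hj').2

end Pool.Agent.SRH
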